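import Mathlib
import Pool.Agent.Lib.MP_2a941c_nt.Ident3
import Pool.Agent.Lib.MP_2a941c_nt.RingR

set_option autoImplicit false

/-!
For all positive integers `m, n` the polynomials
`A_{m,n}(x) = (1/n) ∑_{k<n} (2k+1) d_k(x)^m s_k(x)^m` and
`B_{m,n}(x) = (1/n) ∑_{k<n} (-1)^k (2k+1) d_k(x)^m s_k(x)^m` are integer-valued.

The proof rests on the identity
`d_k(x) s_k(x) = ∑_{j ≤ k} C(k,j) C(k+j,j) B_j(x)` with
`B_j(x) = ∑_{i ≤ j} (-1)^(j-i) 2^i C(j,i) C(x+i,i) C(x+i,2j)`.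
-/

namespace Pool.Agent.Results.MP_2a941c_nt.IntegerValued

open Finset Polynomial Pool.Agent.Lib.MP_2a941c_nt

/-- The binomial coefficient `p(p-1)⋯(p-k+1)/k!` of a polynomial `p`. -/
noncomputable def binomPoly (p : ℚ[X]) (k : ℕ) : ℚ[X] :=
  C ((k.factorial : ℚ)⁻¹) * ∏ i ∈ range k, (p - C (i : ℚ))

/-- `d_n(x) = ∑_{k ≤ n} 2^k C(n,k) C(x,k)`. -/
noncomputable def d (n : ℕ) : ℚ[X] :=
  ∑ k ∈ range (n + 1), C ((2 : ℚ) ^ k * (n.choose k : ℚ)) * binomPoly X k

/-- `s_n(x) = ∑_{k ≤ n} C(n,k) C(x,k) C(x+k,k)`. -/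
noncomputable def s (n : ℕ) : ℚ[X] :=
  ∑ k ∈ range (n + 1), C (n.choose k : ℚ) * (binomPoly X k * binomPoly (X + C (k : ℚ)) k)

/-- `A_{m,n}(x) = (1/n) ∑_{k<n} (2k+1) d_k(x)^m s_k(x)^m`. -/
noncomputable def A (m n : ℕ) : ℚ[X] :=
  C (1 / (n : ℚ)) * ∑ k ∈ range n, C (2 * (k : ℚ) + 1) * (d k ^ m * s k ^ m)

/-- `B_{m,n}(x) = (1/n) ∑_{k<n} (-1)^k (2k+1) d_k(x)^m s_k(x)^m`. -/
noncomputable def B (m n : ℕ) : ℚ[X] :=
  C (1 / (n : ℚ)) * ∑ k ∈ range n, C ((-1 : ℚ) ^ k * (2 * (k : ℚ) + 1)) * (d k ^ m * s k ^ m)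

/-- A polynomial over `ℚ` is integer-valued when it takes integer values at all integers. -/
def IsIntegerValued (P : ℚ[X]) : Prop := ∀ a : ℤ, ∃ z : ℤ, P.eval (a : ℚ) = (z : ℚ)

lemma eval_binomPoly (p : ℚ[X]) (k : ℕ) (x : ℚ) :
    (binomPoly p k).eval x = (k.factorial : ℚ)⁻¹ * ∏ i ∈ range k, (p.eval x - (i : ℚ)) := by
  unfold binomPoly
  rw [eval_mul, eval_C, eval_prod]
  congr 1
  apply Finset.prod_congr rfl
  intro i _
  simp

lemma prod_nat (m k : ℕ) :
    (k.factorial : ℚ)⁻¹ * ∏ i ∈ range k, ((m : ℚ) - (i : ℚ)) = (m.choose k : ℚ) := by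
  have h1 : ∏ i ∈ range k, ((m : ℚ) - (i : ℚ)) = (descPochhammer ℚ k).eval (m : ℚ) := by
    rw [descPochhammer_eval_eq_prod_range]
  rw [h1, descPochhammer_eval_eq_descFactorial, Nat.descFactorial_eq_factorial_mul_choose]
  have h2 : (k.factorial : ℚ) ≠ 0 := by
    exact_mod_cast Nat.factorial_ne_zero k
  push_cast
  field_simp

lemma eval_binomPoly_nat (p : ℚ[X]) (k : ℕ) (x : ℚ) (m : ℕ) (h : p.eval x = (m : ℚ)) :
    (binomPoly p k).eval x = (m.choose k : ℚ) := by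
  rw [eval_binomPoly, h, prod_nat]

lemma int_binomPoly (p : ℚ[X]) (k : ℕ) (x : ℚ) (z : ℤ) (h : p.eval x = (z : ℚ)) :
    ∃ y : ℤ, (binomPoly p k).eval x = (y : ℚ) := by
  rw [eval_binomPoly, h]
  have h1 := Nat.factorial_coe_dvd_prod k (z - k + 1)
  obtain ⟨y, hy⟩ := h1
  refine ⟨y, ?_⟩
  have h2 : ∏ i ∈ range k, ((z : ℚ) - (i : ℚ)) =
      ((∏ i ∈ range k, (z - (k : ℤ) + 1 + (i : ℤ)) : ℤ) : ℚ) := by
    rw [← Finset.prod_range_reflect]
    push_cast
    apply Finset.prod_congr rfl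
    intro i hi
    rw [mem_range] at hi
    have : ((k - 1 - i : ℕ) : ℚ) = (k : ℚ) - 1 - i := by
      rw [Nat.cast_sub (by omega), Nat.cast_sub (by omega)]
      simp
    rw [this]
    ring
  rw [h2, hy]
  have h3 : (k.factorial : ℚ) ≠ 0 := by
    exact_mod_cast Nat.factorial_ne_zero k
  push_cast
  field_simp

lemma eval_d_nat (k m : ℕ) : (d k).eval (m : ℚ) = dn k m := by
  unfold d
  rw [eval_finsetSum]
  have h1 : ∑ i ∈ range (k + 1), eval (m : ℚ) (C ((2 : ℚ) ^ i * (k.choose i : ℚ)) * binomPoly X i) =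
      ∑ i ∈ range (m + k + 1), (2 : ℚ) ^ i * (m.choose i) * (k.choose i) := by
    have h2 : ∀ i ∈ range (k + 1),
        eval (m : ℚ) (C ((2 : ℚ) ^ i * (k.choose i : ℚ)) * binomPoly X i) =
        (2 : ℚ) ^ i * (m.choose i) * (k.choose i) := by
      intro i _
      rw [eval_mul, eval_C, eval_binomPoly_nat X i (m : ℚ) m (by simp)]
      ring
    rw [Finset.sum_congr rfl h2]
    apply Finset.sum_subset
    · intro x hx
      rw [mem_range] at *
      omega
    · intro x _ hx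
      rw [mem_range] at hx
      rw [Nat.choose_eq_zero_of_lt (show k < x by omega)]
      simp
  rw [h1, dn_eq k m (m + k) (by omega)]

lemma eval_s_nat (k m : ℕ) : (s k).eval (m : ℚ) = sn k m := by
  unfold s sn
  rw [eval_finsetSum]
  have h1 : ∑ i ∈ range (k + 1), eval (m : ℚ)
      (C (k.choose i : ℚ) * (binomPoly X i * binomPoly (X + C (i : ℚ)) i)) =
      ∑ l ∈ range (m + k + 1), (k.choose l : ℚ) * (m.choose l) * ((m + l).choose l) := by
    have h2 : ∀ i ∈ range (k + 1), eval (m : ℚ)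
        (C (k.choose i : ℚ) * (binomPoly X i * binomPoly (X + C (i : ℚ)) i)) =
        (k.choose i : ℚ) * (m.choose i) * ((m + i).choose i) := by
      intro i _
      rw [eval_mul, eval_C, eval_mul, eval_binomPoly_nat X i (m : ℚ) m (by simp),
        eval_binomPoly_nat (X + C (i : ℚ)) i (m : ℚ) (m + i) (by simp)]
      ring
    rw [Finset.sum_congr rfl h2]
    apply Finset.sum_subset
    · intro x hx
      rw [mem_range] at *
      omega
    · intro x _ hx
      rw [mem_range] at hx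
      rw [Nat.choose_eq_zero_of_lt (show k < x by omega)]
      simp
  have h3 : ∑ l ∈ range (m + 1), (k.choose l : ℚ) * (m.choose l) * ((m + l).choose l) =
      ∑ l ∈ range (m + k + 1), (k.choose l : ℚ) * (m.choose l) * ((m + l).choose l) := by
    apply Finset.sum_subset
    · intro x hx
      rw [mem_range] at *
      omega
    · intro x _ hx
      rw [mem_range] at hx
      rw [Nat.choose_eq_zero_of_lt (show m < x by omega)]
      simp
  rw [h1, h3]

/-- the polynomials `B_j(x)` -/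
noncomputable def BB (j : ℕ) : ℚ[X] :=
  ∑ n ∈ range (j + 1), C ((2 : ℚ) ^ n * (-1) ^ (j - n) * (j.choose n)) *
    (binomPoly (X + C (n : ℚ)) n * binomPoly (X + C (n : ℚ)) (2 * j))

lemma eval_BB_nat (j m : ℕ) : (BB j).eval (m : ℚ) = Bn j m := by
  unfold BB Bn
  rw [eval_finsetSum]
  apply Finset.sum_congr rfl
  intro n _
  rw [eval_mul, eval_C, eval_mul, eval_binomPoly_nat (X + C (n : ℚ)) n (m : ℚ) (m + n) (by simp),
    eval_binomPoly_nat (X + C (n : ℚ)) (2 * j) (m : ℚ) (m + n) (by simp)]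
  ring

/-- the key polynomial identity -/
lemma key_identity (k : ℕ) : d k * s k =
    ∑ j ∈ range (k + 1), C ((k.choose j : ℚ) * ((k + j).choose j)) * BB j := by
  apply Polynomial.eq_of_infinite_eval_eq
  apply Set.infinite_of_injective_forall_mem (f := fun m : ℕ => (m : ℚ)) Nat.cast_injective
  intro m
  simp only [Set.mem_ofPred_eq]
  rw [eval_mul, eval_d_nat, eval_s_nat, dn_mul_sn, eval_finsetSum]
  apply Finset.sum_congr rfl
  intro j _
  rw [eval_mul, eval_C, eval_BB_nat]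

lemma int_d (k : ℕ) (a : ℤ) : ∃ z : ℤ, (d k).eval (a : ℚ) = (z : ℚ) := by
  have h : ∀ i : ℕ, ∃ y : ℤ, (binomPoly X i).eval (a : ℚ) = (y : ℚ) :=
    fun i => int_binomPoly X i a a (by simp)
  choose y hy using h
  refine ⟨∑ i ∈ range (k + 1), (2 : ℤ) ^ i * (k.choose i : ℤ) * y i, ?_⟩
  unfold d
  rw [eval_finsetSum]
  push_cast
  apply Finset.sum_congr rfl
  intro i _
  rw [eval_mul, eval_C, hy i]

lemma int_s (k : ℕ) (a : ℤ) : ∃ z : ℤ, (s k).eval (a : ℚ) = (z : ℚ) := by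
  have h : ∀ i : ℕ, ∃ y : ℤ, (binomPoly X i * binomPoly (X + C (i : ℚ)) i).eval (a : ℚ) =
      (y : ℚ) := by
    intro i
    obtain ⟨y1, h1⟩ := int_binomPoly X i a a (by simp)
    obtain ⟨y2, h2⟩ := int_binomPoly (X + C (i : ℚ)) i a (a + i) (by simp)
    refine ⟨y1 * y2, ?_⟩
    rw [eval_mul, h1, h2]
    push_cast
    ring
  choose y hy using h
  refine ⟨∑ i ∈ range (k + 1), (k.choose i : ℤ) * y i, ?_⟩
  unfold s
  rw [eval_finsetSum]
  push_cast
  apply Finset.sum_congr rfl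
  intro i _
  rw [eval_mul, eval_C, hy i]

lemma int_BB (j : ℕ) (a : ℤ) : ∃ z : ℤ, (BB j).eval (a : ℚ) = (z : ℚ) := by
  have h : ∀ n : ℕ, ∃ y : ℤ, (binomPoly (X + C (n : ℚ)) n *
      binomPoly (X + C (n : ℚ)) (2 * j)).eval (a : ℚ) = (y : ℚ) := by
    intro n
    obtain ⟨y1, h1⟩ := int_binomPoly (X + C (n : ℚ)) n a (a + n) (by simp)
    obtain ⟨y2, h2⟩ := int_binomPoly (X + C (n : ℚ)) (2 * j) a (a + n) (by simp)
    refine ⟨y1 * y2, ?_⟩
    rw [eval_mul, h1, h2]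
    push_cast
    ring
  choose y hy using h
  refine ⟨∑ n ∈ range (j + 1), (2 : ℤ) ^ n * (-1) ^ (j - n) * (j.choose n : ℤ) * y n, ?_⟩
  unfold BB
  rw [eval_finsetSum]
  push_cast
  apply Finset.sum_congr rfl
  intro i _
  rw [eval_mul, eval_C, hy i]

/-- For all positive integers `m, n`, both `A_{m,n}` and `B_{m,n}` are integer-valued. -/
theorem result : ∀ m n : ℕ, 1 ≤ m → 1 ≤ n →
    IsIntegerValued (A m n) ∧ IsIntegerValued (B m n) := by
  intro m n _ hn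
  have hn0 : (n : ℚ) ≠ 0 := by
    have : n ≠ 0 := by omega
    exact_mod_cast this
  -- the integer sequence k ↦ d_k(a) s_k(a) lies in the ring
  have key : ∀ a : ℤ, ∃ f : ℕ → ℤ, InR f ∧ ∀ k, (d k).eval (a : ℚ) * (s k).eval (a : ℚ) = f k := by
    intro a
    have hb : ∀ j : ℕ, ∃ z : ℤ, (BB j).eval (a : ℚ) = (z : ℚ) := fun j => int_BB j a
    choose b hb using hb
    refine ⟨fun k => ∑ j ∈ range (k + 1), b j * cc j k, ⟨b, fun k => rfl⟩, ?_⟩
    intro k
    have h := congrArg (eval (a : ℚ)) (key_identity k)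
    rw [eval_mul, eval_finsetSum] at h
    rw [h]
    push_cast
    apply Finset.sum_congr rfl
    intro j _
    rw [eval_mul, eval_C, hb j]
    unfold cc
    push_cast
    ring
  constructor
  · intro a
    obtain ⟨f, hf, hfk⟩ := key a
    obtain ⟨z, hz⟩ := (hf.pow m).dvd_sum n
    refine ⟨z, ?_⟩
    unfold A
    rw [eval_mul, eval_C, eval_finsetSum]
    have h1 : ∑ k ∈ range n, eval (a : ℚ) (C (2 * (k : ℚ) + 1) * (d k ^ m * s k ^ m)) =
        ((∑ k ∈ range n, (2 * (k : ℤ) + 1) * f k ^ m : ℤ) : ℚ) := by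
      push_cast
      apply Finset.sum_congr rfl
      intro k _
      rw [eval_mul, eval_C, eval_mul, eval_pow, eval_pow, ← mul_pow, hfk k]
    rw [h1, hz]
    push_cast
    field_simp
  · intro a
    obtain ⟨f, hf, hfk⟩ := key a
    obtain ⟨z, hz⟩ := (hf.pow m).dvd_sum_alt n
    refine ⟨z, ?_⟩
    unfold B
    rw [eval_mul, eval_C, eval_finsetSum]
    have h1 : ∑ k ∈ range n, eval (a : ℚ)
        (C ((-1 : ℚ) ^ k * (2 * (k : ℚ) + 1)) * (d k ^ m * s k ^ m)) =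
        ((∑ k ∈ range n, (-1) ^ k * (2 * (k : ℤ) + 1) * f k ^ m : ℤ) : ℚ) := by
      push_cast
      apply Finset.sum_congr rfl
      intro k _
      rw [eval_mul, eval_C, eval_mul, eval_pow, eval_pow, ← mul_pow, hfk k]
    rw [h1, hz]
    push_cast
    field_simp

end Pool.Agent.Results.MP_2a941c_nt.IntegerValued
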